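import Pool.Agent.U646.LC.Core

/-!
# The bound for local colourings with few torn or uncovered sets of four vertices
-/

set_option autoImplicit false
open Finset
open scoped Classical

namespace Pool.Agent.U646.LC

open Pool.Agent.N439.CT

variable {n : ℕ}

/-- the sets of four vertices which contain a torn pair or no triple of `sameT` -/
noncomputable def badQ (col : Fin n → Fin n → ℕ) : Finset (Finset (Fin n)) :=
  (univ.powersetCard 4).filter fun Q : Finset (Fin n) => TornIn col Q ∨ ∀ s ⊆ Q, s ∉ sameT col

theorem card_over (t : Finset (Fin n)) (N : ℕ) (h : t.card ≤ N) :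
    (((univ : Finset (Fin n)).powersetCard N).filter fun V => t ⊆ V).card =
      (n - t.card).choose (N - t.card) := by
  have h1 : (((univ : Finset (Fin n)).powersetCard N).filter fun V => t ⊆ V) =
      ((univ \ t).powersetCard (N - t.card)).image (fun W => W ∪ t) := by
    ext V
    rw [mem_filter, mem_powersetCard, mem_image]
    constructor
    · rintro ⟨⟨_, hV⟩, htV⟩
      refine ⟨V \ t, mem_powersetCard.2 ⟨sdiff_subset_sdiff (subset_univ _) (Subset.refl _), ?_⟩,
        sdiff_union_of_subset htV⟩
      rw [card_sdiff_of_subset htV, hV]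
    · rintro ⟨W, hW, rfl⟩
      rw [mem_powersetCard] at hW
      have hd : Disjoint W t := by
        rw [disjoint_left]
        intro a ha ha'
        exact (mem_sdiff.1 (hW.1 ha)).2 ha'
      refine ⟨⟨subset_univ _, ?_⟩, subset_union_right⟩
      rw [card_union_of_disjoint hd, hW.2]
      omega
  rw [h1, card_image_of_injOn, card_powersetCard, card_sdiff_of_subset (subset_univ _), card_univ,
    Fintype.card_fin]
  intro W hW W' hW' he
  have hW := (mem_powersetCard.1 (mem_coe.1 hW)).1
  have hW' := (mem_powersetCard.1 (mem_coe.1 hW')).1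
  have he' : W ∪ t = W' ∪ t := he
  have key : ∀ A B : Finset (Fin n), A ⊆ univ \ t → A ∪ t = B ∪ t → A ⊆ B := by
    intro A B hA hAB a ha
    have h2 : a ∈ B ∪ t := by
      rw [← hAB]
      exact mem_union_left _ ha
    rcases mem_union.1 h2 with h3 | h3
    · exact h3
    · exact absurd h3 (mem_sdiff.1 (hA ha)).2
  exact Subset.antisymm (key W W' hW he') (key W' W hW' he'.symm)

theorem torn_sub {col : Fin n → Fin n → ℕ} {V : Finset (Fin n)} (h : TornIn col V) :
    ∃ Q ⊆ V, Q.card = 4 ∧ TornIn col Q := by
  obtain ⟨x, hx, y, hy, a, ha, b, hb, hxy, hax, hay, hbx, hby, h1, h2, h3, h4⟩ := h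
  have hab : a ≠ b := by
    rintro rfl
    exact h2 h3
  refine ⟨{x, y, a, b}, ?_, ?_, ?_⟩
  · intro w hw
    simp only [mem_insert, mem_singleton] at hw
    rcases hw with rfl | rfl | rfl | rfl <;> assumption
  · rw [card_insert_of_notMem, card_insert_of_notMem, card_insert_of_notMem, card_singleton]
    · simpa using hab
    · simp only [mem_insert, mem_singleton, not_or]
      exact ⟨hay.symm, hby.symm⟩
    · simp only [mem_insert, mem_singleton, not_or]
      exact ⟨hxy, hax.symm, hbx.symm⟩
  · exact ⟨x, by simp, y, by simp, a, by simp, b, by simp, hxy, hax, hay, hbx, hby, h1, h2, h3, h4⟩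

/-- **The averaged bound.** -/
theorem averaged (col : Fin n → Fin n → ℕ) (N : ℕ) (hN : 4 ≤ N) :
    n.choose N * turan N ≤ (sameT col).card * (n - 3).choose (N - 3) +
      (badQ col).card * (n - 4).choose (N - 4) * turan N := by
  set P := (univ : Finset (Fin n)).powersetCard N with hP
  have hPc : P.card = n.choose N := by
    rw [hP, card_powersetCard, card_univ, Fintype.card_fin]
  set BV := P.filter fun V => ∃ Q ∈ badQ col, Q ⊆ V with hBV
  have h1 : ∀ V ∈ P, turan N ≤ ((sameT col).filter fun s => s ⊆ V).card +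
      (if V ∈ BV then turan N else 0) := by
    intro V hV
    by_cases hb : V ∈ BV
    · rw [if_pos hb]
      omega
    · rw [if_neg hb, add_zero]
      have hg : ∀ Q ∈ badQ col, ¬ Q ⊆ V := by
        intro Q hQ hQV
        exact hb (mem_filter.2 ⟨hV, Q, hQ, hQV⟩)
      have hT : ¬ TornIn col V := by
        intro hT
        obtain ⟨Q, hQV, hQ4, hQ⟩ := torn_sub hT
        exact hg Q (mem_filter.2 ⟨mem_powersetCard.2 ⟨subset_univ _, hQ4⟩, Or.inl hQ⟩) hQV
      have hC : ∀ Q ⊆ V, Q.card = 4 → ∃ s ⊆ Q, s ∈ sameT col := by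
        intro Q hQV hQ4
        by_contra hcon
        push Not at hcon
        exact hg Q (mem_filter.2 ⟨mem_powersetCard.2 ⟨subset_univ _, hQ4⟩, Or.inr hcon⟩) hQV
      have h2 := main col V hT hC
      rw [(mem_powersetCard.1 hV).2] at h2
      exact h2
  have h2 := sum_le_sum h1
  rw [sum_const, smul_eq_mul, hPc, sum_add_distrib] at h2
  have h3 : ∑ V ∈ P, ((sameT col).filter fun s => s ⊆ V).card =
      (sameT col).card * (n - 3).choose (N - 3) := by
    have e1 : ∀ V ∈ P, ((sameT col).filter fun s => s ⊆ V).card =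
        ∑ s ∈ sameT col, if s ⊆ V then 1 else 0 := by
      intro V _
      rw [card_filter]
    rw [sum_congr rfl e1, sum_comm]
    have e2 : ∀ s ∈ sameT col, ∑ V ∈ P, (if s ⊆ V then 1 else 0) = (n - 3).choose (N - 3) := by
      intro s hs
      have hs3 := (mem_powersetCard.1 (mem_filter.1 hs).1).2
      rw [← card_filter, hP, card_over s N (by omega), hs3]
    rw [sum_congr rfl e2, sum_const, smul_eq_mul]
  have h4 : ∑ V ∈ P, (if V ∈ BV then turan N else 0) ≤
      (badQ col).card * (n - 4).choose (N - 4) * turan N := by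
    rw [← sum_filter, sum_const, smul_eq_mul]
    apply Nat.mul_le_mul_right
    have e1 : P.filter (fun V => V ∈ BV) ⊆
        (badQ col).biUnion fun Q => P.filter fun V => Q ⊆ V := by
      intro V hV
      obtain ⟨hVP, Q, hQ, hQV⟩ := mem_filter.1 (mem_filter.1 hV).2
      exact mem_biUnion.2 ⟨Q, hQ, mem_filter.2 ⟨hVP, hQV⟩⟩
    refine (card_le_card e1).trans (card_biUnion_le.trans ?_)
    refine (sum_le_card_nsmul _ _ ((n - 4).choose (N - 4)) ?_).trans (by rw [smul_eq_mul])
    intro Q hQ
    have hQ4 := (mem_powersetCard.1 (mem_filter.1 hQ).1).2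
    rw [hP, card_over Q N (by omega), hQ4]
  rw [h3] at h2
  omega

end Pool.Agent.U646.LC
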