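import Pool.Agent.N439.CT.Main

/-!
# Local colourings without torn pairs

Every vertex `x` gives a colour `col x y` to every other vertex `y`. A pair `x, y` of a set `S` is torn if
there are `a` and `b` in `S` such that `x` gives `a` and `y` the same colour but `y` does not do so for `a` and
`x`, and `y` gives `b` and `x` the same colour but `x` does not do so for `b` and `y`. If there are no torn
pairs, each pair can be given to one of its two vertices in such a way that in every triple with
`col x y = col x z` some vertex which gives the same colour to the two others owns both pairs. This reduces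
the problem to the theorem on arc-coloured tournaments.
-/

set_option autoImplicit false
open Finset
open scoped Classical

namespace Pool.Agent.U646.LC

open Pool.Agent.N439.CT

variable {n : ℕ}

/-- the size of the class of `y` at `x` -/
noncomputable def D (col : Fin n → Fin n → ℕ) (S : Finset (Fin n)) (x y : Fin n) : ℕ :=
  (S.filter fun w => w ≠ x ∧ col x w = col x y).card

/-- the owner of the pair `x, y` is `x` -/
noncomputable def own (col : Fin n → Fin n → ℕ) (S : Finset (Fin n)) (x y : Fin n) : Bool :=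
  decide (D col S y x < D col S x y ∨ (D col S x y = D col S y x ∧ x < y))

/-- the set `S` contains a torn pair -/
def TornIn (col : Fin n → Fin n → ℕ) (S : Finset (Fin n)) : Prop :=
  ∃ x ∈ S, ∃ y ∈ S, ∃ a ∈ S, ∃ b ∈ S, x ≠ y ∧ a ≠ x ∧ a ≠ y ∧ b ≠ x ∧ b ≠ y ∧
    col x a = col x y ∧ col y a ≠ col y x ∧ col y b = col y x ∧ col x b ≠ col x y

/-- the triples in which some vertex gives the same colour to the two others -/
noncomputable def sameT (col : Fin n → Fin n → ℕ) : Finset (Finset (Fin n)) :=
  (univ.powersetCard 3).filter fun s : Finset (Fin n) =>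
    ∃ x ∈ s, ∃ y ∈ s, ∃ z ∈ s, x ≠ y ∧ x ≠ z ∧ y ≠ z ∧ col x y = col x z

theorem own_iff {col : Fin n → Fin n → ℕ} {S : Finset (Fin n)} {x y : Fin n} :
    own col S x y = true ↔ D col S y x < D col S x y ∨ (D col S x y = D col S y x ∧ x < y) := by
  unfold own
  rw [decide_eq_true_eq]

theorem own_anti {col : Fin n → Fin n → ℕ} {S : Finset (Fin n)} (x y : Fin n)
    (h : own col S x y = true) : own col S y x = false := by
  rw [← Bool.not_eq_true, own_iff]
  rw [own_iff] at h
  rcases h with h | ⟨h, h'⟩
  · rintro (h1 | ⟨h1, _⟩) <;> omega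
  · rintro (h1 | ⟨_, h1⟩)
    · omega
    · exact absurd (h'.trans h1) (lt_irrefl x)

theorem own_total {col : Fin n → Fin n → ℕ} {S : Finset (Fin n)} (x y : Fin n) (hxy : x ≠ y) :
    own col S x y = true ∨ own col S y x = true := by
  rw [own_iff, own_iff]
  rcases lt_trichotomy (D col S x y) (D col S y x) with h | h | h
  · exact Or.inr (Or.inl h)
  · rcases lt_or_gt_of_ne hxy with h' | h'
    · exact Or.inl (Or.inr ⟨h, h'⟩)
    · exact Or.inr (Or.inr ⟨h.symm, h'⟩)
  · exact Or.inl (Or.inl h)

theorem nested {col : Fin n → Fin n → ℕ} {S : Finset (Fin n)} (hT : ¬ TornIn col S) {x y : Fin n}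
    (hx : x ∈ S) (hy : y ∈ S) (hxy : x ≠ y) (h : own col S x y = true) {b : Fin n} (hb : b ∈ S)
    (hbx : b ≠ x) (hby : b ≠ y) (h1 : col y b = col y x) : col x b = col x y := by
  by_contra h2
  have h3 : ∀ a ∈ S, a ≠ x → a ≠ y → col x a = col x y → col y a = col y x := by
    intro a ha hax hay h4
    by_contra h5
    exact hT ⟨x, hx, y, hy, a, ha, b, hb, hxy, hax, hay, hbx, hby, h4, h5, h1, h2⟩
  have h4 : D col S x y < D col S y x := by
    unfold D
    set A := S.filter fun w => w ≠ x ∧ col x w = col x y with hA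
    set B := S.filter fun w => w ≠ y ∧ col y w = col y x with hB
    have hyA : y ∈ A := mem_filter.2 ⟨hy, hxy.symm, rfl⟩
    have hxB : x ∈ B := mem_filter.2 ⟨hx, hxy, rfl⟩
    have h5 : A.erase y ⊂ B.erase x := by
      rw [ssubset_iff_of_subset]
      · refine ⟨b, mem_erase.2 ⟨hbx, mem_filter.2 ⟨hb, hby, h1⟩⟩, fun h6 => ?_⟩
        exact h2 (mem_filter.1 (mem_of_mem_erase h6)).2.2
      · intro a ha
        rw [mem_erase, hA, mem_filter] at ha
        refine mem_erase.2 ⟨ha.2.2.1, mem_filter.2 ⟨ha.2.1, ha.1, ?_⟩⟩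
        exact h3 a ha.2.1 ha.2.2.1 ha.1 ha.2.2.2
    have h6 := card_lt_card h5
    rw [card_erase_of_mem hyA, card_erase_of_mem hxB] at h6
    have h7 := card_pos.2 ⟨y, hyA⟩
    have h8 := card_pos.2 ⟨x, hxB⟩
    omega
  rw [own_iff] at h
  omega

theorem D_congr {col : Fin n → Fin n → ℕ} {S : Finset (Fin n)} {x y z : Fin n}
    (h : col x y = col x z) : D col S x y = D col S x z := by
  unfold D
  rw [h]

theorem no_cycle {col : Fin n → Fin n → ℕ} {S : Finset (Fin n)} {x y z : Fin n}
    (h1 : own col S x y = true) (h2 : own col S y z = true) (h3 : own col S z x = true)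
    (e1 : col x y = col x z) (e2 : col y x = col y z) (e3 : col z x = col z y) : False := by
  rw [own_iff] at h1 h2 h3
  have d1 := D_congr (S := S) e1
  have d2 := D_congr (S := S) e2
  have d3 := D_congr (S := S) e3
  rcases h1 with h1 | ⟨h1, l1⟩
  · rcases h2 with h2 | ⟨h2, l2⟩ <;> rcases h3 with h3 | ⟨h3, l3⟩ <;> omega
  · rcases h2 with h2 | ⟨h2, l2⟩
    · rcases h3 with h3 | ⟨h3, l3⟩ <;> omega
    · rcases h3 with h3 | ⟨h3, l3⟩
      · omega
      · exact absurd ((l1.trans l2).trans l3) (lt_irrefl x)

theorem centre {col : Fin n → Fin n → ℕ} {S : Finset (Fin n)} (hT : ¬ TornIn col S) {x y z : Fin n}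
    (hx : x ∈ S) (hy : y ∈ S) (hz : z ∈ S) (hxy : x ≠ y) (hxz : x ≠ z) (hyz : y ≠ z)
    (h : col x y = col x z) :
    (own col S x y = true ∧ own col S x z = true ∧ col x y = col x z) ∨
    (own col S y x = true ∧ own col S y z = true ∧ col y x = col y z) ∨
    (own col S z x = true ∧ own col S z y = true ∧ col z x = col z y) := by
  by_cases a : own col S x y = true
  · by_cases b : own col S x z = true
    · exact Or.inl ⟨a, b, h⟩
    · have b' := (own_total x z hxz).resolve_left b
      have h1 : col z y = col z x := nested hT hz hx hxz.symm b' hy hyz hxy.symm h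
      by_cases c : own col S z y = true
      · exact Or.inr (Or.inr ⟨b', c, h1.symm⟩)
      · have c' := (own_total y z hyz).resolve_right c
        have h2 : col y x = col y z := nested hT hy hz hyz c' hx hxy hxz h1.symm
        exact (no_cycle a c' b' h h2 h1.symm).elim
  · have a' := (own_total x y hxy).resolve_left a
    have h1 : col y z = col y x := nested hT hy hx hxy.symm a' hz hyz.symm hxz.symm h.symm
    by_cases c : own col S y z = true
    · exact Or.inr (Or.inl ⟨a', c, h1.symm⟩)
    · have c' := (own_total y z hyz).resolve_left c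
      have h2 : col z x = col z y := nested hT hz hy hyz.symm c' hx hxz hxy h1.symm
      by_cases b : own col S z x = true
      · exact Or.inr (Or.inr ⟨b, c', h2⟩)
      · have b' := (own_total x z hxz).resolve_right b
        exact (no_cycle b' c' a' h.symm h2 h1.symm).elim

theorem main (col : Fin n → Fin n → ℕ) (S : Finset (Fin n)) (hT : ¬ TornIn col S)
    (hC : ∀ Q ⊆ S, Q.card = 4 → ∃ s ⊆ Q, s ∈ sameT col) :
    turan S.card ≤ ((sameT col).filter fun s => s ⊆ S).card := by
  set N : ℕ := (univ.sup fun p : Fin n × Fin n => col p.1 p.2) + 1 with hN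
  have hcolN : ∀ x y, col x y < N + 2 := by
    intro x y
    have := le_sup (f := fun p : Fin n × Fin n => col p.1 p.2) (mem_univ (x, y))
    simp only at this
    omega
  have hcov : Cov (own col S) col S := by
    intro Q hQ hQ4
    obtain ⟨s, hsQ, hs⟩ := hC Q hQ hQ4
    obtain ⟨-, x, hx, y, hy, z, hz, hxy, hxz, hyz, h⟩ := mem_filter.1 hs
    have hxS := hQ (hsQ hx)
    have hyS := hQ (hsQ hy)
    have hzS := hQ (hsQ hz)
    rcases centre hT hxS hyS hzS hxy hxz hyz h with ⟨h1, h2, h3⟩ | ⟨h1, h2, h3⟩ | ⟨h1, h2, h3⟩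
    · exact ⟨x, hsQ hx, y, hsQ hy, z, hsQ hz, hyz, h1, h2, h3⟩
    · exact ⟨y, hsQ hy, x, hsQ hx, z, hsQ hz, hxz, h1, h2, h3⟩
    · exact ⟨z, hsQ hz, x, hsQ hx, y, hsQ hy, hxy, h1, h2, h3⟩
  have h1 := tournament (col := col) own_anti own_total N hcolN hcov
  refine h1.trans (card_le_card ?_)
  intro e he
  rw [mem_ch] at he
  obtain ⟨he3, x, hx, y, hy, z, hz, hyz, h1, h2, h3⟩ := he
  have hxy : x ≠ y := by
    rintro rfl
    have := own_anti _ _ h1
    rw [h1] at this
    cases this
  have hxz : x ≠ z := by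
    rintro rfl
    have := own_anti _ _ h2
    rw [h2] at this
    cases this
  rw [mem_powersetCard] at he3
  exact mem_filter.2 ⟨mem_filter.2 ⟨mem_powersetCard.2 ⟨subset_univ _, he3.2⟩,
    x, hx, y, hy, z, hz, hxy, hxz, hyz, h3⟩, he3.1⟩

end Pool.Agent.U646.LC
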