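import Pool.Agent.U646.LC.Avg

/-!
# Density form of the averaged bound
-/

set_option autoImplicit false
open Finset
open scoped Classical

namespace Pool.Agent.U646.LC

open Pool.Agent.N439.CT

theorem choose_three (n : ℕ) :
    ((n.choose 3 : ℕ) : ℝ) = (n : ℝ) ^ 3 / 6 - (n : ℝ) ^ 2 / 2 + (n : ℝ) / 3 := by
  induction n with
  | zero => simp
  | succ n ih =>
    have h2 : ((n.choose 2 : ℕ) : ℝ) = (n : ℝ) * ((n : ℝ) - 1) / 2 := Nat.cast_choose_two ℝ n
    rw [Nat.choose_succ_succ' n 2]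
    push_cast
    rw [ih, h2]
    ring

theorem turan_three (s : ℕ) : (turan (3 * (s + 1)) : ℝ) =
    2 * ((s : ℝ) + 1) ^ 3 - 3 * ((s : ℝ) + 1) ^ 2 + ((s : ℝ) + 1) := by
  unfold turan
  have h1 : 3 * (s + 1) % 3 = 0 := by omega
  have h2 : 3 * (s + 1) / 3 = s + 1 := by omega
  rw [if_pos h1, h2]
  have h3 : s + 1 - 1 = s := by omega
  have h4 : 2 * (s + 1) - 1 = 2 * s + 1 := by omega
  rw [h3, h4]
  push_cast
  ring

theorem turan_lower (n : ℕ) : ((n.choose 3 : ℕ) : ℝ) ≤ 5 / 54 * (n : ℝ) ^ 3 + turan n := by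
  rw [choose_three]
  obtain ⟨s, r, hr, hs⟩ : ∃ s r, r < 3 ∧ n = 3 * s + r := ⟨n / 3, n % 3, by omega, by omega⟩
  have h1 : n / 3 = s := by omega
  have h2 : n % 3 = r := by omega
  unfold turan
  rw [h1, h2]
  have hs0 : (0 : ℝ) ≤ s := Nat.cast_nonneg s
  interval_cases r
  · rw [if_pos rfl, hs]
    rcases Nat.eq_zero_or_pos s with rfl | h
    · norm_num
    obtain ⟨k, rfl⟩ : ∃ k, s = k + 1 := ⟨s - 1, by omega⟩
    have h3 : k + 1 - 1 = k := by omega
    have h4 : 2 * (k + 1) - 1 = 2 * k + 1 := by omega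
    rw [h3, h4]
    have hk : (0 : ℝ) ≤ k := Nat.cast_nonneg k
    push_cast
    nlinarith [hk, mul_nonneg hk hk]
  · rw [if_neg (by norm_num), if_pos rfl, hs]
    rcases Nat.eq_zero_or_pos s with rfl | h
    · norm_num
    obtain ⟨k, rfl⟩ : ∃ k, s = k + 1 := ⟨s - 1, by omega⟩
    have h4 : 2 * (k + 1) - 1 = 2 * k + 1 := by omega
    rw [h4]
    have hk : (0 : ℝ) ≤ k := Nat.cast_nonneg k
    push_cast
    nlinarith [hk, mul_nonneg hk hk, mul_nonneg (mul_nonneg hk hk) hk]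
  · rw [if_neg (by norm_num), if_neg (by norm_num), hs]
    push_cast
    nlinarith [hs0, mul_nonneg hs0 hs0, mul_nonneg (mul_nonneg hs0 hs0) hs0]

variable {n : ℕ}

theorem same_le (col : Fin n → Fin n → ℕ) : (sameT col).card ≤ n.choose 3 := by
  have h := card_le_card (filter_subset (fun s : Finset (Fin n) =>
    ∃ x ∈ s, ∃ y ∈ s, ∃ z ∈ s, x ≠ y ∧ x ≠ z ∧ y ≠ z ∧ col x y = col x z)
    ((univ : Finset (Fin n)).powersetCard 3))
  rwa [card_powersetCard, card_univ, Fintype.card_fin] at h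

/-- without bad sets -/
theorem exact_of_bad (col : Fin n → Fin n → ℕ) (h : badQ col = ∅) :
    turan n ≤ (sameT col).card := by
  have hT : ¬ TornIn col univ := by
    intro hT
    obtain ⟨Q, _, hQ4, hQ⟩ := torn_sub hT
    have : Q ∈ badQ col := mem_filter.2 ⟨mem_powersetCard.2 ⟨subset_univ _, hQ4⟩, Or.inl hQ⟩
    rw [h] at this
    simp at this
  have hC : ∀ Q ⊆ (univ : Finset (Fin n)), Q.card = 4 → ∃ s ⊆ Q, s ∈ sameT col := by
    intro Q _ hQ4
    by_contra hcon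
    push Not at hcon
    have : Q ∈ badQ col := mem_filter.2 ⟨mem_powersetCard.2 ⟨subset_univ _, hQ4⟩, Or.inr hcon⟩
    rw [h] at this
    simp at this
  have h1 := main col univ hT hC
  rw [card_univ, Fintype.card_fin] at h1
  exact h1.trans (card_le_card (filter_subset _ _))

/-- **The density form.** -/
theorem density (ε : ℝ) (hε : 0 < ε) : ∃ δ : ℝ, 0 < δ ∧ ∀ (n : ℕ) (col : Fin n → Fin n → ℕ),
    ((badQ col).card : ℝ) ≤ δ * (n : ℝ) ^ 4 →
    ((n.choose 3 : ℕ) : ℝ) - (sameT col).card ≤ (5 / 54 + ε) * (n : ℝ) ^ 3 := by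
  obtain ⟨s, hs⟩ := exists_nat_gt (1 / ε)
  have hs0 : (0 : ℝ) ≤ s := Nat.cast_nonneg s
  set t : ℝ := (s : ℝ) + 1 with ht
  have ht1 : 1 ≤ t := by linarith
  have ht0 : 0 < t := by linarith
  have hst : 1 ≤ ε * t := by
    have h1 : 1 / ε * ε = 1 := by field_simp
    nlinarith [mul_lt_mul_of_pos_right hs hε]
  refine ⟨min (ε / (48 * t ^ 4)) (1 / (100 * t ^ 4)), by positivity, ?_⟩
  intro n col hb
  set N : ℕ := 3 * (s + 1) with hN
  have hn0 : (0 : ℝ) ≤ n := Nat.cast_nonneg n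
  have hb1 : ((badQ col).card : ℝ) ≤ ε / (48 * t ^ 4) * (n : ℝ) ^ 4 :=
    hb.trans (mul_le_mul_of_nonneg_right (min_le_left _ _) (by positivity))
  have hb2 : ((badQ col).card : ℝ) ≤ 1 / (100 * t ^ 4) * (n : ℝ) ^ 4 :=
    hb.trans (mul_le_mul_of_nonneg_right (min_le_right _ _) (by positivity))
  rcases Nat.lt_or_ge n (N + 1) with hlt | hge
  · -- few vertices: there are no bad sets
    have hnt : (n : ℝ) ≤ 3 * t := by
      have : n ≤ N := by omega
      have h1 : (n : ℝ) ≤ (N : ℝ) := by exact_mod_cast this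
      rw [hN] at h1
      push_cast at h1
      linarith
    have h1 : ((badQ col).card : ℝ) < 1 := by
      refine hb2.trans_lt ?_
      have h2 : (n : ℝ) ^ 4 ≤ (3 * t) ^ 4 := pow_le_pow_left₀ hn0 hnt 4
      have h3 : 1 / (100 * t ^ 4) * (n : ℝ) ^ 4 ≤ 1 / (100 * t ^ 4) * (3 * t) ^ 4 :=
        mul_le_mul_of_nonneg_left h2 (by positivity)
      have h4 : 1 / (100 * t ^ 4) * (3 * t) ^ 4 = 81 / 100 := by
        field_simp
        ring
      linarith
    have h2 : badQ col = ∅ := by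
      have : (badQ col).card < 1 := by exact_mod_cast h1
      exact card_eq_zero.1 (by omega)
    have h3 := exact_of_bad col h2
    have h4 := turan_lower n
    have h5 : (turan n : ℝ) ≤ (sameT col).card := by exact_mod_cast h3
    have h6 : 0 ≤ ε * (n : ℝ) ^ 3 := by positivity
    linarith
  · have hs1 : 1 ≤ s := by
      have h1 : (0 : ℝ) < s := lt_trans (by positivity) hs
      exact_mod_cast h1
    have hNn : N ≤ n := by omega
    have hn4 : 4 ≤ n := by omega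
    have hav := averaged (n := n) col N (by omega)
    have hn4' : (4 : ℝ) ≤ n := by exact_mod_cast hn4
    set A : ℝ := (((n - 3).choose (N - 3) : ℕ) : ℝ) with hA
    set B : ℝ := (((n - 4).choose (N - 4) : ℕ) : ℝ) with hB
    set C : ℝ := ((n.choose 3 : ℕ) : ℝ) with hC
    set S : ℝ := ((sameT col).card : ℝ) with hS
    set b : ℝ := ((badQ col).card : ℝ) with hbb
    set τ : ℝ := (turan N : ℝ) with hτ
    have hτ' : τ = 2 * t ^ 3 - 3 * t ^ 2 + t := turan_three s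
    have hNt : (N : ℝ) = 3 * t := by
      rw [hN, ht]
      push_cast
      ring
    set κ : ℝ := 9 / 2 * t ^ 3 - 9 / 2 * t ^ 2 + t with hκ
    have hκ' : ((N.choose 3 : ℕ) : ℝ) = κ := by
      rw [choose_three, hNt]
      ring
    have k1 : ((n.choose N : ℕ) : ℝ) * κ = C * A := by
      rw [← hκ', hC, hA]
      exact_mod_cast Nat.choose_mul (n := n) (by omega : 3 ≤ N)
    have k2 : A * (3 * t - 3) = (n - 3) * B := by
      have h1 := Nat.add_one_mul_choose_eq (n - 4) (N - 4)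
      have e1 : n - 4 + 1 = n - 3 := by omega
      have e2 : N - 4 + 1 = N - 3 := by omega
      rw [e1, e2] at h1
      have h2 : ((n - 3 : ℕ) : ℝ) * B = A * ((N - 3 : ℕ) : ℝ) := by
        rw [hA, hB]
        exact_mod_cast h1
      have e3 : ((n - 3 : ℕ) : ℝ) = n - 3 := by
        rw [Nat.cast_sub (by omega)]
        norm_num
      have e4 : ((N - 3 : ℕ) : ℝ) = 3 * t - 3 := by
        rw [Nat.cast_sub (by omega), hNt]
        norm_num
      rw [e3, e4] at h2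
      exact h2.symm
    have k3 : ((n.choose N : ℕ) : ℝ) * τ ≤ S * A + b * B * τ := by
      rw [hτ, hS, hA, hbb, hB]
      exact_mod_cast hav
    have hApos : 0 < A := by
      rw [hA]
      exact_mod_cast Nat.choose_pos (by omega : N - 3 ≤ n - 3)
    have hκpos : 0 < κ := by
      have h1 : 0 ≤ (t - 1) * (t * t) := mul_nonneg (sub_nonneg.2 ht1) (mul_pos ht0 ht0).le
      have h2 : κ = 9 / 2 * ((t - 1) * (t * t)) + t := by
        rw [hκ]
        ring
      linarith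
    have hn3 : 0 < (n : ℝ) - 3 := by linarith
    have hb0 : 0 ≤ b := Nat.cast_nonneg _
    have hτ0 : 0 ≤ τ := Nat.cast_nonneg _
    have k4 : C * τ * (n - 3) ≤ S * κ * (n - 3) + b * κ * τ * (3 * t - 3) := by
      have h1 := mul_le_mul_of_nonneg_right k3 (mul_nonneg hκpos.le hn3.le)
      refine le_of_mul_le_mul_left ?_ hApos
      calc A * (C * τ * (n - 3)) = (C * A) * τ * (n - 3) := by ring
        _ = ((n.choose N : ℕ) : ℝ) * τ * (κ * (n - 3)) := by rw [← k1]; ring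
        _ ≤ (S * A + b * B * τ) * (κ * (n - 3)) := h1
        _ = S * A * κ * (n - 3) + b * τ * κ * ((n - 3) * B) := by ring
        _ = A * (S * κ * (n - 3) + b * κ * τ * (3 * t - 3)) := by rw [← k2]; ring
    have k5 : κ - τ ≤ (5 / 9 + ε) * κ := by
      have h1 : 0 < 9 / 2 * t ^ 2 - 9 / 2 * t + 1 := by
        have h1' : 0 ≤ t * (t - 1) := mul_nonneg ht0.le (sub_nonneg.2 ht1)
        have h1'' : 9 / 2 * t ^ 2 - 9 / 2 * t + 1 = 9 / 2 * (t * (t - 1)) + 1 := by ring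
        linarith
      have h2 : 9 / 2 * t ^ 2 - 9 / 2 * t + 1 ≤ ε * κ := by
        have h3 := mul_le_mul_of_nonneg_right hst h1.le
        have h4 : ε * t * (9 / 2 * t ^ 2 - 9 / 2 * t + 1) = ε * κ := by
          rw [hκ]
          ring
        linarith
      have h3 : κ - τ ≤ 5 / 9 * κ + (9 / 2 * t ^ 2 - 9 / 2 * t + 1) := by
        have h4 : 0 ≤ (t - 1) * (t - 1) := mul_nonneg (sub_nonneg.2 ht1) (sub_nonneg.2 ht1)
        have h5 : 5 / 9 * κ + (9 / 2 * t ^ 2 - 9 / 2 * t + 1) - (κ - τ) =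
            7 / 2 * ((t - 1) * (t - 1)) + 55 / 18 * t - 5 / 2 := by
          rw [hκ, hτ']
          ring
        linarith
      linarith
    have hC3 : C ≤ (n : ℝ) ^ 3 / 6 := by
      have h1 : 0 ≤ (n : ℝ) * ((n : ℝ) - 4) := mul_nonneg hn0 (sub_nonneg.2 hn4')
      have h2 : C = (n : ℝ) ^ 3 / 6 - (n : ℝ) ^ 2 / 2 + (n : ℝ) / 3 := by
        rw [hC, choose_three]
      have h3 : (n : ℝ) ^ 3 / 6 - ((n : ℝ) ^ 3 / 6 - (n : ℝ) ^ 2 / 2 + (n : ℝ) / 3) =
          1 / 2 * ((n : ℝ) * ((n : ℝ) - 4)) + 5 / 3 * n := by ring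
      linarith
    have hC0 : 0 ≤ C := Nat.cast_nonneg _
    have k6 : C * (κ - τ) ≤ (n : ℝ) ^ 3 / 6 * ((5 / 9 + ε) * κ) := by
      have h1 : C * (κ - τ) ≤ C * ((5 / 9 + ε) * κ) := mul_le_mul_of_nonneg_left k5 hC0
      exact h1.trans (mul_le_mul_of_nonneg_right hC3 (by positivity))
    have k7 : b * τ * (3 * t - 3) ≤ ε / 2 * (n : ℝ) ^ 3 * (n - 3) := by
      clear_value A B C S κ
      clear k1 k2 k3 k4 k5 k6 hκ' hav
      have h1 : τ ≤ 2 * t ^ 3 := by
        have h1' : 0 ≤ (t - 1) * t := mul_nonneg (sub_nonneg.2 ht1) ht0.le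
        have h1'' : 2 * t ^ 3 - (2 * t ^ 3 - 3 * t ^ 2 + t) = 3 * ((t - 1) * t) + 2 * t := by ring
        rw [hτ']
        linarith
      have h2 : b * τ ≤ b * (2 * t ^ 3) := mul_le_mul_of_nonneg_left h1 hb0
      have h3 : b * τ * (3 * t - 3) ≤ b * (2 * t ^ 3) * (3 * t) := by
        refine mul_le_mul h2 (by linarith) (by linarith) (by positivity)
      have h4 : b * (2 * t ^ 3) * (3 * t) ≤ ε / (48 * t ^ 4) * (n : ℝ) ^ 4 * (6 * t ^ 4) := by
        have h5 := mul_le_mul_of_nonneg_right hb1 (by positivity : 0 ≤ 6 * t ^ 4)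
        have h5' : b * (2 * t ^ 3) * (3 * t) = b * (6 * t ^ 4) := by ring
        rw [h5']
        exact h5
      have h5 : ε / (48 * t ^ 4) * (n : ℝ) ^ 4 * (6 * t ^ 4) = ε / 8 * (n : ℝ) ^ 4 := by
        have h6 : t ^ 4 ≠ 0 := by positivity
        have h7 : ∀ u v : ℝ, u ≠ 0 → ε / (48 * u) * v * (6 * u) = ε / 8 * v := by
          intro u v hu
          field_simp
          ring
        exact h7 _ _ h6
      have h6 : ε / 8 * (n : ℝ) ^ 4 ≤ ε / 2 * (n : ℝ) ^ 3 * (n - 3) := by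
        have h7 : 0 ≤ ε * (n : ℝ) ^ 3 := by positivity
        have h8 : 0 ≤ ε * (n : ℝ) ^ 3 * ((n : ℝ) - 4) := mul_nonneg h7 (sub_nonneg.2 hn4')
        have h9 : ε / 2 * (n : ℝ) ^ 3 * (n - 3) - ε / 8 * (n : ℝ) ^ 4 =
          3 / 8 * (ε * (n : ℝ) ^ 3 * ((n : ℝ) - 4)) := by ring
        linarith
      linarith
    have k8 : (C - S) * (κ * (n - 3)) ≤ (5 / 54 + ε) * (n : ℝ) ^ 3 * (κ * (n - 3)) := by
      have h1 := mul_le_mul_of_nonneg_right k6 hn3.le
      have h2 := mul_le_mul_of_nonneg_left k7 hκpos.le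
      have h3 : 0 ≤ ε * (n : ℝ) ^ 3 * (κ * (n - 3)) := by positivity
      clear_value A B C S κ τ b t
      have e1 : (C - S) * (κ * (n - 3)) = C * (κ - τ) * (n - 3) +
          (C * τ * (n - 3) - S * κ * (n - 3)) := by ring
      have e2 : (n : ℝ) ^ 3 / 6 * ((5 / 9 + ε) * κ) * (n - 3) =
          (5 / 54 + ε / 6) * (n : ℝ) ^ 3 * (κ * (n - 3)) := by ring
      have e3 : κ * (ε / 2 * (n : ℝ) ^ 3 * (n - 3)) = 1 / 2 * (ε * (n : ℝ) ^ 3 * (κ * (n - 3))) := by ring
      have e4 : (5 / 54 + ε) * (n : ℝ) ^ 3 * (κ * (n - 3)) =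
          (5 / 54 + ε / 6) * (n : ℝ) ^ 3 * (κ * (n - 3)) + 5 / 6 * (ε * (n : ℝ) ^ 3 * (κ * (n - 3))) := by
        ring
      have e5 : κ * (b * τ * (3 * t - 3)) = b * κ * τ * (3 * t - 3) := by ring
      rw [e1, e4, ← e2]
      rw [e3, e5] at h2
      linarith
    exact le_of_mul_le_mul_right k8 (mul_pos hκpos hn3)

end Pool.Agent.U646.LC
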